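import Mathlib

set_option autoImplicit false

/-!
# The minimum size of a largest odd induced subgraph in cographs

`m(n) = 2 ⌈n / 6⌉` for all `n ≥ 2`.
-/

open Finset
open scoped Classical

namespace Pool.Agent.Results.MP_007251_co.CographMos

variable {V : Type*} [Fintype V]

/-- `T` induces an odd subgraph of `G`: every vertex of `T` has an odd number of neighbours
in `T`. -/
def IsOddSet {V : Type*} [Fintype V] (G : SimpleGraph V) (T : Finset V) : Prop :=
  ∀ v ∈ T, Odd (T.filter fun w => G.Adj v w).card

/-- `mos G`: the largest number of vertices of an odd induced subgraph of `G`. -/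
noncomputable def mos {V : Type*} [Fintype V] (G : SimpleGraph V) : ℕ :=
  (univ.filter fun T : Finset V => IsOddSet G T).sup Finset.card

/-- A cograph: no induced path on four vertices. -/
def IsCograph {V : Type*} (G : SimpleGraph V) : Prop :=
  ¬ (SimpleGraph.pathGraph 4).IsIndContained G

/-- No isolated vertex. -/
def NoIsolated {V : Type*} (G : SimpleGraph V) : Prop := ∀ v, ∃ w, G.Adj v w

/-! ### Explicit form of `P₄`-freeness -/

/-- explicit form -/
def P4free {V : Type*} (G : SimpleGraph V) : Prop :=
  ∀ a b c d : V, G.Adj a b → G.Adj b c → G.Adj c d → ¬ G.Adj a c → ¬ G.Adj b d →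
    ¬ G.Adj a d → a ≠ c → b ≠ d → a ≠ d → False

omit [Fintype V] in
lemma p4free_of_cograph {G : SimpleGraph V} (h : IsCograph G) : P4free G := by
  intro a b c d hab hbc hcd hac hbd had nac nbd nad
  apply h
  refine ⟨⟨⟨![a, b, c, d], ?_⟩, ?_⟩⟩
  · intro i j hij
    have h1 := hab.ne
    have h2 := hbc.ne
    have h3 := hcd.ne
    fin_cases i <;> fin_cases j <;> simp_all
  · intro i j
    have h1 := hab.symm
    have h2 := hbc.symm
    have h3 := hcd.symm
    have h4 : ¬ G.Adj c a := fun h => hac h.symm
    have h5 : ¬ G.Adj d b := fun h => hbd h.symm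
    have h6 : ¬ G.Adj d a := fun h => had h.symm
    change G.Adj (![a, b, c, d] i) (![a, b, c, d] j) ↔ _
    fin_cases i <;> fin_cases j <;>
      simp [SimpleGraph.pathGraph_adj, hab, hbc, hcd, hac, hbd, had, h1, h2, h3, h4, h5, h6]

omit [Fintype V] in
lemma cograph_of_p4free {G : SimpleGraph V} (h : P4free G) : IsCograph G := by
  rintro ⟨f⟩
  have adj : ∀ i j : Fin 4, G.Adj (f i) (f j) ↔ (SimpleGraph.pathGraph 4).Adj i j :=
    fun i j => f.map_rel_iff
  refine h (f 0) (f 1) (f 2) (f 3) ?_ ?_ ?_ ?_ ?_ ?_ ?_ ?_ ?_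
  · rw [adj]; simp [SimpleGraph.pathGraph_adj]
  · rw [adj]; simp [SimpleGraph.pathGraph_adj]
  · rw [adj]; simp [SimpleGraph.pathGraph_adj]
  · rw [adj]; simp [SimpleGraph.pathGraph_adj]
  · rw [adj]; simp [SimpleGraph.pathGraph_adj]
  · rw [adj]; simp [SimpleGraph.pathGraph_adj]
  · intro hh; exact absurd (f.injective hh) (by decide)
  · intro hh; exact absurd (f.injective hh) (by decide)
  · intro hh; exact absurd (f.injective hh) (by decide)

omit [Fintype V] in
lemma p4free_compl {G : SimpleGraph V} (h : P4free G) : P4free Gᶜ := by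
  intro a b c d hab hbc hcd hac hbd had nac nbd nad
  simp only [SimpleGraph.compl_adj, not_and, not_not] at *
  exact h c a d b (hac nac).symm (had nad) (hbd nbd).symm hcd.2 hab.2
    (fun h => hbc.2 h.symm) hcd.1 hab.1 hbc.1.symm

/-! ### Symmetric sums over `ZMod 2` -/

omit [Fintype V] in
lemma sum_symm_zmod2 (S : Finset V) (a : V → V → ZMod 2) (ha : ∀ v w, a v w = a w v) :
    ∑ v ∈ S, ∑ w ∈ S, a v w = ∑ v ∈ S, a v v := by
  have h1 : ∑ v ∈ S, ∑ w ∈ S, a v w = ∑ p ∈ S ×ˢ S, a p.1 p.2 := by
    rw [Finset.sum_product]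
  have h2 : ∑ v ∈ S, a v v = ∑ p ∈ (S ×ˢ S).filter (fun p => p.1 = p.2), a p.1 p.2 := by
    refine Finset.sum_bij (fun v _ => (v, v)) ?_ ?_ ?_ ?_
    · intro v hv; simp [hv]
    · intro v _ w _ h; simpa using h
    · rintro ⟨v, w⟩ h
      simp only [mem_filter, mem_product] at h
      obtain ⟨⟨hv, hw⟩, rfl⟩ := h
      exact ⟨v, hv, rfl⟩
    · intro v _; rfl
  have h3 : ∑ p ∈ (S ×ˢ S).filter (fun p => ¬ p.1 = p.2), a p.1 p.2 = 0 := by
    refine Finset.sum_involution (fun p _ => (p.2, p.1)) ?_ ?_ ?_ ?_
    · intro p _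
      rw [ha p.2 p.1]
      exact CharTwo.add_self_eq_zero _
    · intro p hp _ h
      simp only [mem_filter] at hp
      exact hp.2 (congrArg Prod.snd h)
    · intro p hp
      simp only [mem_filter, mem_product] at hp ⊢
      exact ⟨⟨hp.1.2, hp.1.1⟩, fun h => hp.2 h.symm⟩
    · intro p _; rfl
  rw [h1, h2, ← Finset.sum_filter_add_sum_filter_not (S ×ˢ S) (fun p => p.1 = p.2), h3, add_zero]

/-- every odd set has an even number of elements -/
lemma oddSet_even {G : SimpleGraph V} {T : Finset V} (hT : IsOddSet G T) : Even T.card := by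
  have h := sum_symm_zmod2 T (fun v w => if G.Adj v w then (1 : ZMod 2) else 0)
    (fun v w => by simp [SimpleGraph.adj_comm])
  simp only [SimpleGraph.irrefl, if_false, sum_const_zero] at h
  have h2 : ∀ v ∈ T, ∑ w ∈ T, (if G.Adj v w then (1 : ZMod 2) else 0) = 1 := by
    intro v hv
    rw [Finset.sum_boole]
    exact (ZMod.natCast_eq_one_iff_odd).2 (hT v hv)
  rw [Finset.sum_congr rfl h2] at h
  simp only [sum_const, nsmul_eq_mul, mul_one] at h
  exact (ZMod.natCast_eq_zero_iff_even).1 h

/-! ### Gallai's partition -/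

lemma exists_functional {K : Type*} [Field K] (L : (V → K) →ₗ[K] (V → K)) (b : V → K)
    (hb : b ∉ LinearMap.range L) :
    ∃ y : V → K, (∀ x, ∑ v, y v * L x v = 0) ∧ ∑ v, y v * b v ≠ 0 := by
  obtain ⟨f, hf1, hf2⟩ := Submodule.exists_dual_map_eq_bot_of_notMem hb inferInstance
  have hfr : ∀ x, f (L x) = 0 := by
    intro x
    have : f (L x) ∈ (LinearMap.range L).map f := Submodule.mem_map_of_mem ⟨x, rfl⟩
    rw [hf2] at this
    exact (Submodule.mem_bot K).1 this
  have hfy : ∀ z : V → K, f z = ∑ v, f (Pi.single v 1) * z v := by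
    intro z
    have hz : z = ∑ v, z v • (Pi.single v (1 : K) : V → K) := by
      ext w
      simp [Finset.sum_apply, Pi.single_apply]
    conv_lhs => rw [hz]
    rw [map_sum]
    refine Finset.sum_congr rfl fun v _ => ?_
    rw [map_smul, smul_eq_mul, mul_comm]
  refine ⟨fun v => f (Pi.single v 1), fun x => ?_, ?_⟩
  · rw [← hfy]; exact hfr x
  · rw [← hfy]; exact hf1

lemma gallai (G : SimpleGraph V) : ∃ T : Finset V,
    (∀ v ∈ T, Odd (univ.filter fun w => w ∈ T ∧ G.Adj v w).card) ∧
    (∀ v, v ∉ T → Even (univ.filter fun w => w ∉ T ∧ G.Adj v w).card) := by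
  -- the matrix
  let deg : V → ZMod 2 := fun v => ∑ w, if G.Adj v w then (1 : ZMod 2) else 0
  let M : V → V → ZMod 2 := fun v w => (if G.Adj v w then 1 else 0) + if v = w then deg v + 1 else 0
  have Msymm : ∀ v w, M v w = M w v := by
    intro v w
    simp only [M]
    by_cases h : v = w
    · subst h; rfl
    · have h2 : ¬ w = v := fun h' => h h'.symm
      rw [if_neg h, if_neg h2]
      simp [SimpleGraph.adj_comm]
  let L : (V → ZMod 2) →ₗ[ZMod 2] (V → ZMod 2) := (Matrix.of M).mulVecLin
  have Lapp : ∀ x v, L x v = ∑ w, M v w * x w := by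
    intro x v; rfl
  have key : deg ∈ LinearMap.range L := by
    by_contra hcon
    obtain ⟨y, hfr, hf1⟩ := exists_functional L deg hcon
    have hMy : ∀ v, ∑ w, M v w * y w = 0 := by
      intro v
      have h := hfr (Pi.single v 1)
      rw [← h]
      refine Finset.sum_congr rfl fun w _ => ?_
      rw [Lapp]
      rw [Finset.sum_eq_single v]
      · rw [Pi.single_eq_same, mul_one, Msymm v w, mul_comm]
      · intro b _ hb
        rw [Pi.single_eq_of_ne hb, mul_zero]
      · intro h; exact absurd (mem_univ v) h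
    have sq : ∀ x : ZMod 2, x * x = x := by decide
    have hdiag : ∑ v, M v v * y v = 0 := by
      have h := sum_symm_zmod2 (univ : Finset V) (fun v w => y v * (M v w * y w))
        (fun v w => by rw [Msymm v w]; ring)
      have h2 : ∀ v ∈ (univ : Finset V), ∑ w, y v * (M v w * y w) = 0 := by
        intro v _
        rw [← Finset.mul_sum, hMy, mul_zero]
      rw [Finset.sum_congr rfl h2, sum_const_zero] at h
      rw [h]
      refine Finset.sum_congr rfl fun v _ => ?_
      calc M v v * y v = M v v * (y v * y v) := by rw [sq]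
        _ = y v * (M v v * y v) := by ring
    have hone : ∑ v, y v = 0 := by
      have h := hfr (fun _ => 1)
      rw [← h]
      refine Finset.sum_congr rfl fun v _ => ?_
      have : L (fun _ => 1) v = 1 := by
        rw [Lapp]
        simp only [mul_one, M]
        rw [Finset.sum_add_distrib]
        simp only [Finset.sum_ite_eq, mem_univ, if_true]
        change deg v + (deg v + 1) = 1
        rw [← add_assoc, CharTwo.add_self_eq_zero, zero_add]
      rw [this, mul_one]
    apply hf1
    have : ∀ v, y v * deg v = M v v * y v + y v := by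
      intro v
      have h1 : M v v = deg v + 1 := by simp [M]
      rw [h1]
      have h2 : y v + y v = 0 := CharTwo.add_self_eq_zero _
      calc y v * deg v = y v * deg v + (y v + y v) := by rw [h2, add_zero]
        _ = (deg v + 1) * y v + y v := by ring
    rw [Finset.sum_congr rfl (fun v _ => this v), Finset.sum_add_distrib, hdiag, hone, add_zero]
  obtain ⟨x, hx⟩ := key
  have h01 : ∀ z : ZMod 2, z = 0 ∨ z = 1 := by decide
  have eqn : ∀ v, (∑ w, (if G.Adj v w then x w else 0)) + (deg v + 1) * x v = deg v := by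
    intro v
    have h := congrFun hx v
    rw [Lapp] at h
    have h2 : ∀ w ∈ (univ : Finset V), M v w * x w
        = (if G.Adj v w then x w else 0) + (if v = w then (deg v + 1) * x w else 0) := by
      intro w _
      simp only [M, add_mul]
      congr 1
      · split_ifs <;> simp
      · split_ifs
        · ring
        · simp
    rw [Finset.sum_congr rfl h2, Finset.sum_add_distrib, Finset.sum_ite_eq,
      if_pos (mem_univ v)] at h
    exact h
  refine ⟨univ.filter fun v => x v = 1, ?_, ?_⟩
  · intro v hv
    simp only [mem_filter, mem_univ, true_and] at hv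
    rw [← ZMod.natCast_eq_one_iff_odd, ← Finset.sum_boole]
    have h := eqn v
    rw [hv, mul_one] at h
    have h' : (∑ w, (if G.Adj v w then x w else 0)) = 1 := by
      have : (∑ w, (if G.Adj v w then x w else 0)) + (deg v + 1) + (deg v + 1)
          = deg v + (deg v + 1) := by rw [h]
      rw [add_assoc, CharTwo.add_self_eq_zero, add_zero, ← add_assoc, CharTwo.add_self_eq_zero,
        zero_add] at this
      exact this
    refine Eq.trans (Finset.sum_congr rfl fun w _ => ?_) h'
    simp only [mem_filter, mem_univ, true_and]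
    by_cases ha : G.Adj v w
    · rcases h01 (x w) with h0 | h1
      · simp [ha, h0]
      · simp [ha, h1]
    · simp [ha]
  · intro v hv
    simp only [mem_filter, mem_univ, true_and] at hv
    have hv0 : x v = 0 := by
      rcases h01 (x v) with h | h
      · exact h
      · exact absurd h hv
    rw [← ZMod.natCast_eq_zero_iff_even, ← Finset.sum_boole]
    have h := eqn v
    rw [hv0, mul_zero, add_zero] at h
    have : ∑ w, (if (w ∉ (univ.filter fun v => x v = 1) ∧ G.Adj v w) then (1 : ZMod 2) else 0)
        = deg v + ∑ w, (if G.Adj v w then x w else 0) := by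
      simp only [deg]
      rw [← Finset.sum_add_distrib]
      refine Finset.sum_congr rfl fun w _ => ?_
      simp only [mem_filter, mem_univ, true_and]
      by_cases ha : G.Adj v w
      · rcases h01 (x w) with h0 | h1
        · simp [ha, h0]
        · simp only [ha, h1, not_true_eq_false, and_true, if_false, if_true]
          exact (CharTwo.add_self_eq_zero _).symm
      · simp [ha]
    rw [this, h]
    exact CharTwo.add_self_eq_zero _

/-! ### Graphs that admit a join -/

/-- restriction of a graph to a vertex subset (other vertices become isolated) -/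
def restr {V : Type*} (G : SimpleGraph V) (S : Finset V) : SimpleGraph V where
  Adj u v := u ∈ S ∧ v ∈ S ∧ G.Adj u v
  symm := ⟨fun _ _ h => ⟨h.2.1, h.1, h.2.2.symm⟩⟩
  loopless := ⟨fun _ h => G.loopless.irrefl _ h.2.2⟩

omit [Fintype V] in
lemma restr_adj {G : SimpleGraph V} {S : Finset V} {u v : V} :
    (restr G S).Adj u v ↔ u ∈ S ∧ v ∈ S ∧ G.Adj u v := Iff.rfl

/-- Gallai's partition inside a vertex subset. -/
lemma gallai_on (G : SimpleGraph V) (S : Finset V) : ∃ T ⊆ S, IsOddSet G T ∧
    ∀ v ∈ S \ T, Even ((S \ T).filter fun w => G.Adj v w).card := by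
  obtain ⟨T, h1, h2⟩ := gallai (restr G S)
  have hTS : T ⊆ S := by
    intro v hv
    by_contra hvS
    have h := h1 v hv
    have : (univ.filter fun w => w ∈ T ∧ (restr G S).Adj v w) = ∅ := by
      apply Finset.filter_eq_empty_iff.2
      intro w _ hw
      exact hvS hw.2.1
    rw [this] at h
    simp at h
  refine ⟨T, hTS, ?_, ?_⟩
  · intro v hv
    have h := h1 v hv
    have : (univ.filter fun w => w ∈ T ∧ (restr G S).Adj v w) = T.filter fun w => G.Adj v w := by
      ext w
      simp only [mem_filter, mem_univ, true_and, restr_adj]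
      constructor
      · rintro ⟨ha, _, _, hb⟩; exact ⟨ha, hb⟩
      · rintro ⟨ha, hb⟩; exact ⟨ha, hTS hv, hTS ha, hb⟩
    rwa [this] at h
  · intro v hv
    rw [mem_sdiff] at hv
    have h := h2 v hv.2
    have : (univ.filter fun w => w ∉ T ∧ (restr G S).Adj v w)
        = (S \ T).filter fun w => G.Adj v w := by
      ext w
      simp only [mem_filter, mem_univ, true_and, restr_adj, mem_sdiff]
      constructor
      · rintro ⟨ha, _, hc, hb⟩; exact ⟨⟨hc, ha⟩, hb⟩
      · rintro ⟨⟨hc, ha⟩, hb⟩; exact ⟨ha, hv.1, hc, hb⟩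
    rwa [this] at h

omit [Fintype V] in
lemma exists_odd_sub (A : Finset V) (hA : A.Nonempty) :
    ∃ A' ⊆ A, Odd A'.card ∧ A.card ≤ A'.card + 1 := by
  rcases Nat.even_or_odd A.card with h | h
  · obtain ⟨a, ha⟩ := hA
    refine ⟨A.erase a, erase_subset _ _, ?_, ?_⟩
    · rw [card_erase_of_mem ha]
      have : 0 < A.card := card_pos.2 ⟨a, ha⟩
      obtain ⟨k, hk⟩ := h
      exact ⟨k - 1, by omega⟩
    · rw [card_erase_of_mem ha]; omega
  · exact ⟨A, Subset.rfl, h, by omega⟩

/-- a graph that admits a join has a large odd induced subgraph -/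
lemma join_bound (G : SimpleGraph V) (A B : Finset V) (hA : A.Nonempty) (hB : B.Nonempty)
    (hdisj : Disjoint A B) (hadj : ∀ a ∈ A, ∀ b ∈ B, G.Adj a b) :
    ∃ T ⊆ A ∪ B, IsOddSet G T ∧ A.card + B.card ≤ 2 * T.card + 2 := by
  obtain ⟨A', hA', oA, cA⟩ := exists_odd_sub A hA
  obtain ⟨B', hB', oB, cB⟩ := exists_odd_sub B hB
  obtain ⟨P, hP, oP, eP⟩ := gallai_on G A'
  obtain ⟨Q, hQ, oQ, eQ⟩ := gallai_on G B'
  have eP0 := oddSet_even oP
  have eQ0 := oddSet_even oQ
  have dA : Disjoint A' B' := Finset.disjoint_of_subset_left hA' (Finset.disjoint_of_subset_right hB' hdisj)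
  -- general computation
  have gen : ∀ X ⊆ A', ∀ Y ⊆ B', ∀ v ∈ X,
      ((X ∪ Y).filter fun w => G.Adj v w).card = (X.filter fun w => G.Adj v w).card + Y.card := by
    intro X hX Y hY v hv
    rw [filter_union, card_union_of_disjoint]
    · congr 2
      apply filter_true_of_mem
      intro w hw
      exact hadj v (hA' (hX hv)) w (hB' (hY hw))
    · apply disjoint_filter_filter
      exact Finset.disjoint_of_subset_left hX (Finset.disjoint_of_subset_right hY dA)
  have gen' : ∀ X ⊆ A', ∀ Y ⊆ B', ∀ v ∈ Y,
      ((X ∪ Y).filter fun w => G.Adj v w).card = X.card + (Y.filter fun w => G.Adj v w).card := by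
    intro X hX Y hY v hv
    rw [filter_union, card_union_of_disjoint]
    · congr 2
      apply filter_true_of_mem
      intro w hw
      exact (hadj w (hA' (hX hw)) v (hB' (hY hv))).symm
    · apply disjoint_filter_filter
      exact Finset.disjoint_of_subset_left hX (Finset.disjoint_of_subset_right hY dA)
  have cA1 : (A' \ P).card + P.card = A'.card := card_sdiff_add_card_eq_card hP
  have cB1 : (B' \ Q).card + Q.card = B'.card := card_sdiff_add_card_eq_card hQ
  have oA1 : Odd (A' \ P).card := by
    rw [← Nat.not_even_iff_odd]; intro h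
    have : Even A'.card := by rw [← cA1]; exact h.add eP0
    exact (Nat.not_even_iff_odd.2 oA) this
  have oB1 : Odd (B' \ Q).card := by
    rw [← Nat.not_even_iff_odd]; intro h
    have : Even B'.card := by rw [← cB1]; exact h.add eQ0
    exact (Nat.not_even_iff_odd.2 oB) this
  have T1 : IsOddSet G (P ∪ Q) := by
    intro v hv
    rw [mem_union] at hv
    rcases hv with hv | hv
    · rw [gen P hP Q hQ v hv]; exact (oP v hv).add_even eQ0
    · rw [gen' P hP Q hQ v hv]; exact eP0.add_odd (oQ v hv)
  have T2 : IsOddSet G ((A' \ P) ∪ (B' \ Q)) := by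
    intro v hv
    rw [mem_union] at hv
    rcases hv with hv | hv
    · rw [gen _ sdiff_subset _ sdiff_subset v hv]; exact (eP v hv).add_odd oB1
    · rw [gen' _ sdiff_subset _ sdiff_subset v hv]; exact oA1.add_even (eQ v hv)
  have c1 : (P ∪ Q).card = P.card + Q.card :=
    card_union_of_disjoint (Finset.disjoint_of_subset_left hP (Finset.disjoint_of_subset_right hQ dA))
  have c2 : ((A' \ P) ∪ (B' \ Q)).card = (A' \ P).card + (B' \ Q).card :=
    card_union_of_disjoint (Finset.disjoint_of_subset_left sdiff_subset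
      (Finset.disjoint_of_subset_right sdiff_subset dA))
  rcases le_total (P ∪ Q).card ((A' \ P) ∪ (B' \ Q)).card with h | h
  · refine ⟨_, union_subset_union (sdiff_subset.trans hA') (sdiff_subset.trans hB'), T2, ?_⟩
    omega
  · refine ⟨_, union_subset_union (hP.trans hA') (hQ.trans hB'), T1, ?_⟩
    omega

/-! ### Structure of `P₄`-free graphs -/

omit [Fintype V] in
lemma seinsche_step (G : SimpleGraph V) (h4 : P4free G) (S : Finset V) (v : V) (hv : v ∈ S)
    (A B : Finset V) (hA : A.Nonempty) (hB : B.Nonempty) (hd : Disjoint A B)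
    (hAB : A ∪ B = S.erase v) (hno : ∀ a ∈ A, ∀ b ∈ B, ¬ G.Adj a b) :
    ∃ A B : Finset V, A.Nonempty ∧ B.Nonempty ∧ Disjoint A B ∧ A ∪ B = S ∧
      ((∀ a ∈ A, ∀ b ∈ B, ¬ G.Adj a b) ∨ (∀ a ∈ A, ∀ b ∈ B, G.Adj a b)) := by
  by_cases hall : ∀ y ∈ S.erase v, G.Adj v y
  · refine ⟨{v}, S.erase v, singleton_nonempty v, ?_, ?_, ?_, Or.inr ?_⟩
    · rw [← hAB]; exact hA.mono subset_union_left
    · simp
    · rw [← insert_eq, insert_erase hv]
    · intro a ha b hb
      rw [mem_singleton] at ha
      subst ha
      exact hall b hb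
  push Not at hall
  obtain ⟨y, hy, hvy⟩ := hall
  let R : V → V → Prop := fun a b => a ∈ S.erase v ∧ b ∈ S.erase v ∧ G.Adj a b
  let C : Finset V := (S.erase v).filter fun x => Relation.ReflTransGen R y x
  have hyC : y ∈ C := by
    simp only [C, mem_filter]; exact ⟨hy, Relation.ReflTransGen.refl⟩
  have hCS : C ⊆ S.erase v := filter_subset _ _
  have hclosed : ∀ a ∈ C, ∀ b ∈ S.erase v, G.Adj a b → b ∈ C := by
    intro a ha b hb hab
    simp only [C, mem_filter] at ha ⊢
    exact ⟨hb, ha.2.tail ⟨ha.1, hb, hab⟩⟩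
  have hmin : ∀ D : Finset V, y ∈ D → (∀ a ∈ D, ∀ b ∈ S.erase v, G.Adj a b → b ∈ D) → C ⊆ D := by
    intro D hyD hD x hx
    simp only [C, mem_filter] at hx
    have hx2 := hx.2
    clear hx
    induction hx2 with
    | refl => exact hyD
    | tail _ hbc ih => exact hD _ ih _ hbc.2.1 hbc.2.2
  -- the complement of `C` in `S.erase v` is nonempty
  have hrest : ((S.erase v) \ C).Nonempty := by
    rw [← hAB] at hy
    rw [mem_union] at hy
    rcases hy with hyA | hyB
    · have hCA : C ⊆ A := by
        apply hmin A hyA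
        intro a ha b hb hab
        rw [← hAB, mem_union] at hb
        rcases hb with hb | hb
        · exact hb
        · exact absurd hab (hno a ha b hb)
      obtain ⟨b, hb⟩ := hB
      refine ⟨b, ?_⟩
      rw [mem_sdiff, ← hAB, mem_union]
      exact ⟨Or.inr hb, fun hbC => (Finset.disjoint_left.1 hd (hCA hbC)) hb⟩
    · have hCB : C ⊆ B := by
        apply hmin B hyB
        intro a ha b hb hab
        rw [← hAB, mem_union] at hb
        rcases hb with hb | hb
        · exact absurd hab.symm (hno b hb a ha)
        · exact hb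
      obtain ⟨a, ha⟩ := hA
      refine ⟨a, ?_⟩
      rw [mem_sdiff, ← hAB, mem_union]
      exact ⟨Or.inl ha, fun haC => (Finset.disjoint_left.1 hd ha) (hCB haC)⟩
  by_cases hvC : ∃ x ∈ C, G.Adj v x
  · -- there is an edge `x' y'` in `C` with `v ~ x'`, `v ≁ y'`
    have hedge : ∃ x' ∈ C, ∃ y' ∈ C, G.Adj x' y' ∧ G.Adj v x' ∧ ¬ G.Adj v y' := by
      by_contra hcon
      push Not at hcon
      obtain ⟨x, hx, hvx⟩ := hvC
      have hsub : C ⊆ C.filter fun c => ¬ G.Adj v c := by
        apply hmin
        · rw [mem_filter]; exact ⟨hyC, hvy⟩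
        · intro a ha b hb hab
          rw [mem_filter] at ha ⊢
          have hbC := hclosed a ha.1 b hb hab
          refine ⟨hbC, fun hvb => ?_⟩
          exact ha.2 (hcon b hbC a ha.1 hab.symm hvb)
      exact (mem_filter.1 (hsub hx)).2 hvx
    obtain ⟨x', hx', y', hy', hxy, hvx', hvy'⟩ := hedge
    by_cases hvr : ∃ z ∈ (S.erase v) \ C, G.Adj v z
    · exfalso
      obtain ⟨z, hz, hvz⟩ := hvr
      rw [mem_sdiff] at hz
      have nxz : ¬ G.Adj x' z := fun h => hz.2 (hclosed x' hx' z hz.1 h)
      have nyz : ¬ G.Adj y' z := fun h => hz.2 (hclosed y' hy' z hz.1 h)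
      refine h4 y' x' v z hxy.symm hvx'.symm hvz (fun h => hvy' h.symm) nxz nyz ?_ ?_ ?_
      · rintro rfl; exact (mem_erase.1 (hCS hy')).1 rfl
      · rintro rfl; exact hz.2 hx'
      · rintro rfl; exact hz.2 hy'
    · push Not at hvr
      refine ⟨insert v C, (S.erase v) \ C, insert_nonempty _ _, hrest, ?_, ?_, Or.inl ?_⟩
      · rw [Finset.disjoint_left]
        intro a ha hb
        rw [mem_sdiff, mem_erase] at hb
        rw [mem_insert] at ha
        rcases ha with rfl | ha
        · exact hb.1.1 rfl
        · exact hb.2 ha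
      · ext a
        simp only [mem_union, mem_insert, mem_sdiff, mem_erase]
        constructor
        · rintro ((rfl | h) | h)
          · exact hv
          · exact (mem_erase.1 (hCS h)).2
          · exact h.1.2
        · intro h
          by_cases hav : a = v
          · exact Or.inl (Or.inl hav)
          · by_cases haC : a ∈ C
            · exact Or.inl (Or.inr haC)
            · exact Or.inr ⟨⟨hav, h⟩, haC⟩
      · intro a ha b hb hab
        rw [mem_insert] at ha
        rcases ha with rfl | ha
        · exact hvr b hb hab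
        · rw [mem_sdiff] at hb
          exact hb.2 (hclosed a ha b hb.1 hab)
  · push Not at hvC
    refine ⟨C, S \ C, ⟨y, hyC⟩, ⟨v, ?_⟩, disjoint_sdiff, ?_, Or.inl ?_⟩
    · rw [mem_sdiff]
      exact ⟨hv, fun h => (mem_erase.1 (hCS h)).1 rfl⟩
    · exact union_sdiff_of_subset (hCS.trans (erase_subset _ _))
    · intro a ha b hb hab
      rw [mem_sdiff] at hb
      by_cases hbv : b = v
      · subst hbv; exact hvC a ha hab.symm
      · exact hb.2 (hclosed a ha b (mem_erase.2 ⟨hbv, hb.1⟩) hab)

omit [Fintype V] in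
/-- Seinsche's theorem. -/
lemma seinsche (G : SimpleGraph V) (h4 : P4free G) : ∀ (n : ℕ) (S : Finset V), S.card = n → 2 ≤ n →
    ∃ A B : Finset V, A.Nonempty ∧ B.Nonempty ∧ Disjoint A B ∧ A ∪ B = S ∧
      ((∀ a ∈ A, ∀ b ∈ B, ¬ G.Adj a b) ∨ (∀ a ∈ A, ∀ b ∈ B, G.Adj a b)) := by
  intro n
  induction n with
  | zero => intro S _ h; omega
  | succ n ih =>
    intro S hS hn
    rcases Nat.lt_or_ge n 2 with hlt | hge
    · have hS2 : S.card = 2 := by omega
      obtain ⟨a, b, hab, rfl⟩ := card_eq_two.1 hS2
      refine ⟨{a}, {b}, singleton_nonempty _, singleton_nonempty _, by simpa using hab, rfl, ?_⟩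
      by_cases h : G.Adj a b
      · right; intro x hx y hy
        rw [mem_singleton] at hx hy; subst hx; subst hy; exact h
      · left; intro x hx y hy
        rw [mem_singleton] at hx hy; subst hx; subst hy; exact h
    · have hne : S.Nonempty := card_pos.1 (by omega)
      obtain ⟨v, hv⟩ := hne
      obtain ⟨A, B, hA, hB, hd, hAB, hcase⟩ := ih (S.erase v)
        (by rw [card_erase_of_mem hv]; omega) hge
      rcases hcase with hno | hyes
      · exact seinsche_step G h4 S v hv A B hA hB hd hAB hno
      · obtain ⟨A₁, B₁, h1, h2, h3, h5, h6⟩ := seinsche_step Gᶜ (p4free_compl h4) S v hv A B hA hB hd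
          hAB (fun a ha b hb h => by
            rw [SimpleGraph.compl_adj] at h
            exact h.2 (hyes a ha b hb))
        refine ⟨A₁, B₁, h1, h2, h3, h5, ?_⟩
        have hne : ∀ a ∈ A₁, ∀ b ∈ B₁, a ≠ b := by
          rintro a ha b hb rfl
          exact (Finset.disjoint_left.1 h3 ha) hb
        rcases h6 with h6 | h6
        · right
          intro a ha b hb
          have := h6 a ha b hb
          rw [SimpleGraph.compl_adj] at this
          push Not at this
          exact this (hne a ha b hb)
        · left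
          intro a ha b hb
          have := h6 a ha b hb
          rw [SimpleGraph.compl_adj] at this
          exact this.2

/-! ### Lower bound -/

lemma lower (G : SimpleGraph V) (h4 : P4free G) : ∀ (n : ℕ) (S : Finset V), S.card = n →
    (∀ v ∈ S, ∃ w ∈ S, G.Adj v w) → ∃ T ⊆ S, IsOddSet G T ∧ S.card ≤ 3 * T.card := by
  intro n
  induction n using Nat.strong_induction_on with
  | _ n ih =>
    intro S hS hiso
    rcases S.eq_empty_or_nonempty with rfl | ⟨v, hv⟩
    · exact ⟨∅, Subset.rfl, by intro v hv; simp at hv, by simp⟩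
    obtain ⟨w, hw, hvw⟩ := hiso v hv
    have hpair : ({v, w} : Finset V) ⊆ S := by
      intro x hx
      simp only [mem_insert, mem_singleton] at hx
      rcases hx with rfl | rfl
      · exact hv
      · exact hw
    have hcp : ({v, w} : Finset V).card = 2 := card_pair hvw.ne
    have hn2 : 2 ≤ n := by
      rw [← hS, ← hcp]; exact card_le_card hpair
    obtain ⟨A, B, hA, hB, hd, hAB, hcase⟩ := seinsche G h4 n S hS hn2
    have hcard : A.card + B.card = n := by
      rw [← hS, ← hAB, card_union_of_disjoint hd]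
    have hApos := card_pos.2 hA
    have hBpos := card_pos.2 hB
    rcases hcase with hno | hyes
    · obtain ⟨T₁, hT₁, o₁, c₁⟩ := ih A.card (by omega) A rfl (by
        intro a ha
        obtain ⟨b, hb, hab⟩ := hiso a (hAB ▸ mem_union_left _ ha)
        rw [← hAB, mem_union] at hb
        rcases hb with hb | hb
        · exact ⟨b, hb, hab⟩
        · exact absurd hab (hno a ha b hb))
      obtain ⟨T₂, hT₂, o₂, c₂⟩ := ih B.card (by omega) B rfl (by
        intro a ha
        obtain ⟨b, hb, hab⟩ := hiso a (hAB ▸ mem_union_right _ ha)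
        rw [← hAB, mem_union] at hb
        rcases hb with hb | hb
        · exact absurd hab.symm (hno b hb a ha)
        · exact ⟨b, hb, hab⟩)
      refine ⟨T₁ ∪ T₂, hAB ▸ union_subset_union hT₁ hT₂, ?_, ?_⟩
      · intro x hx
        rw [mem_union] at hx
        rw [filter_union]
        rcases hx with hx | hx
        · have : T₂.filter (fun w => G.Adj x w) = ∅ := by
            apply filter_eq_empty_iff.2
            intro y hy
            exact hno x (hT₁ hx) y (hT₂ hy)
          rw [this, union_empty]
          exact o₁ x hx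
        · have : T₁.filter (fun w => G.Adj x w) = ∅ := by
            apply filter_eq_empty_iff.2
            intro y hy h
            exact hno y (hT₁ hy) x (hT₂ hx) h.symm
          rw [this, empty_union]
          exact o₂ x hx
      · rw [card_union_of_disjoint (Finset.disjoint_of_subset_left hT₁
          (Finset.disjoint_of_subset_right hT₂ hd))]
        omega
    · rcases Nat.lt_or_ge n 6 with hlt | hge
      · refine ⟨{v, w}, hpair, ?_, by omega⟩
        intro x hx
        simp only [mem_insert, mem_singleton] at hx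
        rcases hx with rfl | rfl
        · have : ({x, w} : Finset V).filter (fun y => G.Adj x y) = {w} := by
            ext y
            simp only [mem_filter, mem_insert, mem_singleton]
            constructor
            · rintro ⟨rfl | rfl, h⟩
              · exact absurd h (G.loopless.irrefl _)
              · rfl
            · rintro rfl; exact ⟨Or.inr rfl, hvw⟩
          rw [this]; simp
        · have : ({v, x} : Finset V).filter (fun y => G.Adj x y) = {v} := by
            ext y
            simp only [mem_filter, mem_insert, mem_singleton]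
            constructor
            · rintro ⟨rfl | rfl, h⟩
              · rfl
              · exact absurd h (G.loopless.irrefl _)
            · rintro rfl; exact ⟨Or.inl rfl, hvw.symm⟩
          rw [this]; simp
      · obtain ⟨T, hT, oT, cT⟩ := join_bound G A B hA hB hd hyes
        refine ⟨T, hAB ▸ hT, oT, ?_⟩
        omega

/-! ### The extremal graphs -/

/-- `K` disjoint blocks, each a balanced complete multipartite graph of order at most six -/
def ext (n K : ℕ) : SimpleGraph (Fin n) where
  Adj i j := i.1 % K = j.1 % K ∧ (i.1 / K) % 3 ≠ (j.1 / K) % 3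
  symm := ⟨fun _ _ h => ⟨h.1.symm, h.2.symm⟩⟩
  loopless := ⟨fun _ h => h.2 rfl⟩

lemma ext_adj {n K : ℕ} {i j : Fin n} :
    (ext n K).Adj i j ↔ i.1 % K = j.1 % K ∧ (i.1 / K) % 3 ≠ (j.1 / K) % 3 := Iff.rfl

lemma ext_p4free (n K : ℕ) : P4free (ext n K) := by
  intro a b c d hab hbc hcd hac hbd had _ _ _
  simp only [ext, not_and, not_not] at *
  have h1 := hac (hab.1.trans hbc.1)
  have h2 := hbd (hbc.1.trans hcd.1)
  have h3 := had (hab.1.trans (hbc.1.trans hcd.1))
  exact hab.2 (h3.trans h2.symm)

lemma ext_noIsolated (n : ℕ) (hn : 2 ≤ n) : NoIsolated (ext n ((n + 5) / 6)) := by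
  intro i
  obtain ⟨i, hi⟩ := i
  have hK : 0 < (n + 5) / 6 := by omega
  generalize hKe : (n + 5) / 6 = K at *
  have h2K : 2 * K ≤ n := by omega
  have hdiv := Nat.div_add_mod i K
  have hmod := Nat.mod_lt i hK
  rcases Nat.eq_zero_or_pos (i / K) with h0 | hpos
  · have hiK : i = i % K := by rw [h0] at hdiv; omega
    have hiK' : i < K := by omega
    refine ⟨⟨i + K, by omega⟩, ?_, ?_⟩
    · simp
    · simp only
      rw [Nat.add_div_right _ hK, h0]
      decide
  · obtain ⟨q, hq⟩ : ∃ q, i / K = q + 1 := ⟨i / K - 1, by omega⟩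
    have hle : K ≤ i := by
      rw [hq] at hdiv
      have : K * 1 ≤ K * (q + 1) := Nat.mul_le_mul_left _ (by omega)
      omega
    refine ⟨⟨i - K, by omega⟩, ?_, ?_⟩
    · simp only
      rw [Nat.mod_eq_sub_mod hle]
    · simp only
      have := Nat.div_eq_sub_div hK hle
      omega

/-- in the extremal graph every odd set meets each block in at most two vertices -/
lemma ext_block (n : ℕ) (T : Finset (Fin n)) (hT : IsOddSet (ext n ((n + 5) / 6)) T)
    (r : ℕ) : (T.filter fun i => i.1 % ((n + 5) / 6) = r).card ≤ 2 := by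
  rcases Nat.eq_zero_or_pos n with rfl | hn0
  · have : T = ∅ := Finset.eq_empty_of_isEmpty T
    subst this; simp
  have hK : 0 < (n + 5) / 6 := by omega
  have hn6 : n ≤ 6 * ((n + 5) / 6) := by omega
  generalize hKe : (n + 5) / 6 = K at *
  -- classes inside the block
  let c : ℕ → Finset (Fin n) := fun k => T.filter fun i => i.1 % K = r ∧ (i.1 / K) % 3 = k
  have hc2 : ∀ k, k < 3 → (c k).card ≤ 2 := by
    intro k hk
    have hsub : (c k).image (fun i => i.1 / K) ⊆ {k, k + 3} := by
      intro q hq
      simp only [c, mem_image, mem_filter] at hq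
      obtain ⟨i, ⟨_, _, h2⟩, rfl⟩ := hq
      have h3 : i.1 / K < 6 := by
        rw [Nat.div_lt_iff_lt_mul hK]
        have := i.2
        omega
      simp only [mem_insert, mem_singleton]
      generalize i.1 / K = q at *
      omega
    have hinj : Set.InjOn (fun i : Fin n => i.1 / K) (c k : Set (Fin n)) := by
      intro i hi j hj hij
      simp only [c, coe_filter, Set.mem_ofPred_eq] at hi hj
      apply Fin.ext
      rw [← Nat.div_add_mod i.1 K, ← Nat.div_add_mod j.1 K, hi.2.1, hj.2.1]
      simp only at hij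
      rw [hij]
    rw [← card_image_of_injOn hinj]
    exact (card_le_card hsub).trans (card_le_two)
  have hsplit : (T.filter fun i => i.1 % K = r).card = (c 0).card + (c 1).card + (c 2).card := by
    have : (T.filter fun i => i.1 % K = r) = c 0 ∪ c 1 ∪ c 2 := by
      ext i
      simp only [c, mem_union, mem_filter]
      have := Nat.mod_lt (i.1 / K) (by norm_num : 0 < 3)
      constructor
      · rintro ⟨h1, h2⟩
        have : (i.1 / K) % 3 = 0 ∨ (i.1 / K) % 3 = 1 ∨ (i.1 / K) % 3 = 2 := by omega
        tauto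
      · tauto
    rw [this, card_union_of_disjoint, card_union_of_disjoint]
    · rw [Finset.disjoint_left]
      intro i hi hj
      simp only [c, mem_filter] at hi hj
      omega
    · rw [Finset.disjoint_left]
      intro i hi hj
      simp only [c, mem_union, mem_filter] at hi hj
      omega
  have hdeg : ∀ i ∈ T, i.1 % K = r →
      (T.filter fun j => (ext n K).Adj i j).card
        = (c 0).card + (c 1).card + (c 2).card - (c ((i.1 / K) % 3)).card := by
    intro i hi hir
    rw [← hsplit]
    have h1 : (T.filter fun j => (ext n K).Adj i j)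
        = (T.filter fun i => i.1 % K = r) \ c ((i.1 / K) % 3) := by
      ext j
      simp only [c, mem_sdiff, mem_filter, ext_adj]
      constructor
      · rintro ⟨h1, h2, h3⟩
        exact ⟨⟨h1, by omega⟩, fun h => h3 h.2.2.symm⟩
      · rintro ⟨⟨h1, h2⟩, h3⟩
        exact ⟨h1, by omega, fun h => h3 ⟨h1, h2, h.symm⟩⟩
    have hsub : c ((i.1 / K) % 3) ⊆ (T.filter fun i => i.1 % K = r) := by
      intro j hj
      simp only [c, mem_filter] at hj ⊢
      exact ⟨hj.1, hj.2.1⟩
    rw [h1, card_sdiff_of_subset hsub]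
  have hodd : ∀ k, k < 3 → 0 < (c k).card →
      Odd ((c 0).card + (c 1).card + (c 2).card - (c k).card) := by
    intro k _ hpos
    obtain ⟨i, hi⟩ := card_pos.1 hpos
    simp only [c, mem_filter] at hi
    have h := hT i hi.1
    rw [hdeg i hi.1 hi.2.1, hi.2.2] at h
    exact h
  have a0 := hc2 0 (by norm_num)
  have a1 := hc2 1 (by norm_num)
  have a2 := hc2 2 (by norm_num)
  have b0 := hodd 0 (by norm_num)
  have b1 := hodd 1 (by norm_num)
  have b2 := hodd 2 (by norm_num)
  rw [hsplit]
  simp only [Nat.odd_iff] at b0 b1 b2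
  omega

lemma ext_upper (n : ℕ) (T : Finset (Fin n)) (hT : IsOddSet (ext n ((n + 5) / 6)) T)
    (hn : 2 ≤ n) : T.card ≤ 2 * ((n + 5) / 6) := by
  have hK : 0 < (n + 5) / 6 := by omega
  have h := Finset.card_eq_sum_card_fiberwise (s := T) (t := range ((n + 5) / 6))
    (f := fun i : Fin n => i.1 % ((n + 5) / 6)) (by
      intro i _
      simp only [coe_range, Set.mem_Iio]
      exact Nat.mod_lt _ hK)
  rw [h]
  calc ∑ r ∈ range ((n + 5) / 6), (T.filter fun i => i.1 % ((n + 5) / 6) = r).card
      ≤ ∑ r ∈ range ((n + 5) / 6), 2 := Finset.sum_le_sum fun r _ => ext_block n T hT r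
    _ = 2 * ((n + 5) / 6) := by rw [sum_const, card_range, smul_eq_mul, mul_comm]

/-- **Main theorem.** For every `n ≥ 2`, the least possible value of `mos G` over all cographs `G`
on `n` vertices without isolated vertices is `2 ⌈n / 6⌉`. -/
theorem result : ∀ n : ℕ, 2 ≤ n →
    IsLeast {k : ℕ | ∃ G : SimpleGraph (Fin n), IsCograph G ∧ NoIsolated G ∧ mos G = k}
      (2 * ⌈(n : ℚ) / 6⌉₊) := by
  intro n hn
  have hceil : ⌈(n : ℚ) / 6⌉₊ = (n + 5) / 6 := by
    rw [Nat.ceil_eq_iff (by omega)]
    constructor
    · rw [lt_div_iff₀ (by norm_num)]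
      have : ((n + 5) / 6 - 1) * 6 < n := by omega
      have h1 : (((n + 5) / 6 - 1 : ℕ) : ℚ) * 6 < n := by exact_mod_cast this
      exact h1
    · rw [div_le_iff₀ (by norm_num)]
      have : n ≤ (n + 5) / 6 * 6 := by omega
      exact_mod_cast this
  rw [hceil]
  have low : ∀ G : SimpleGraph (Fin n), IsCograph G → NoIsolated G →
      2 * ((n + 5) / 6) ≤ mos G := by
    intro G hG hiso
    obtain ⟨T, _, oT, cT⟩ := lower G (p4free_of_cograph hG) n univ (by simp)
      (fun v _ => by obtain ⟨w, hw⟩ := hiso v; exact ⟨w, mem_univ w, hw⟩)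
    rw [card_univ, Fintype.card_fin] at cT
    have hev := oddSet_even oT
    have h1 : T.card ≤ mos G := by
      unfold mos
      exact Finset.le_sup (f := Finset.card) (mem_filter.2 ⟨mem_univ T, oT⟩)
    obtain ⟨k, hk⟩ := hev
    omega
  constructor
  · refine ⟨ext n ((n + 5) / 6), cograph_of_p4free (ext_p4free n _), ext_noIsolated n hn, ?_⟩
    apply le_antisymm
    · unfold mos
      apply Finset.sup_le
      intro T hT
      exact ext_upper n T (mem_filter.1 hT).2 hn
    · exact low _ (cograph_of_p4free (ext_p4free n _)) (ext_noIsolated n hn)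
  · rintro k ⟨G, hG, hiso, rfl⟩
    exact low G hG hiso

end Pool.Agent.Results.MP_007251_co.CographMos
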